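import Pool.Agent.N718.GC.Stm

/-! # Part DIV: the sum of the reciprocals of the primes in a residue class diverges
(the proof for the primes `1` modulo `4` in `Pool/Agent/H256R3/NT.lean`, for all classes). -/

set_option autoImplicit false

open Filter Topology Set

namespace Pool.Agent.N232.GC

open ArithmeticFunction ArithmeticFunction.vonMangoldt

/-- The reciprocals of the primes in an invertible residue class are not summable. -/
theorem not_summable_primes (q : ℕ) [NeZero q] (a : ZMod q) (hunit : IsUnit a) :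
    ¬ Summable (fun n : ℕ => if n.Prime ∧ ((n : ZMod q) = a) then (1 : ℝ) / n else 0) := by
  intro H
  obtain ⟨C, hC⟩ := LSeries_residueClass_lower_bound (q := q) (a := a) hunit
  have hS2 := summable_residueClass_non_primes_div (q := q) a
  set bound : ℕ → ℝ := fun n =>
    (if n.Prime ∧ ((n : ZMod q) = a) then (1 : ℝ) / n else 0) +
      (if n.Prime then 0 else residueClass a n) / n with hbound
  have hsum : Summable bound := H.add hS2
  -- the functions
  set x : ℕ → ℝ := fun j => 1 + 1 / ((j : ℝ) + 1) with hx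
  have hx1 : ∀ j, 1 < x j := by intro j; simp only [hx]; have : (0:ℝ) < 1 / ((j:ℝ)+1) := by positivity
                                linarith
  have hx2 : ∀ j, x j ≤ 2 := by
    intro j; simp only [hx]
    have : 1 / ((j:ℝ)+1) ≤ 1 := by
      rw [div_le_one (by positivity)]; have := Nat.cast_nonneg (α := ℝ) j; linarith
    linarith
  have hxlim : Tendsto (fun j => x j - 1) atTop (𝓝 0) := by
    have := tendsto_one_div_add_atTop_nhds_zero_nat (𝕜 := ℝ)
    simpa [hx] using this
  let f : ℕ → ℕ → ℝ := fun j n => (x j - 1) * (residueClass a n / (n : ℝ) ^ (x j))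
  have hf_bound : ∀ j n, ‖f j n‖ ≤ bound n := by
    intro j n
    have hpos : 0 < x j - 1 := by linarith [hx1 j]
    have hnn : 0 ≤ residueClass a n := residueClass_nonneg _ n
    have hn0 : 0 ≤ (n:ℝ) ^ (x j) := Real.rpow_nonneg (Nat.cast_nonneg n) _
    have hfn : 0 ≤ f j n := mul_nonneg hpos.le (div_nonneg hnn hn0)
    rw [Real.norm_of_nonneg hfn]
    rcases Nat.eq_zero_or_pos n with rfl | hn
    · simp [f, hbound]
    have hnR : (0:ℝ) < n := by exact_mod_cast hn
    have hn1 : (1:ℝ) ≤ n := by exact_mod_cast hn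
    by_cases hp : n.Prime
    · by_cases h3 : (n : ZMod q) = a
      · have hrc : residueClass a n = Real.log n := by
          simp [residueClass, Set.indicator, h3, vonMangoldt_apply_prime hp]
        have hb : bound n = 1 / n := by simp [hbound, hp, h3]
        rw [hb]
        simp only [f, hrc]
        have e1 : (n:ℝ) ^ (x j) = n * (n:ℝ) ^ (x j - 1) := by
          rw [← Real.rpow_one_add' hnR.le (by linarith)]; congr 1; ring
        rw [e1]
        have hlogn : 0 ≤ Real.log n := Real.log_nonneg hn1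
        have e2 : (x j - 1) * Real.log n ≤ (n:ℝ) ^ (x j - 1) := by
          rw [Real.rpow_def_of_pos hnR]
          have := Real.add_one_le_exp (Real.log n * (x j - 1))
          nlinarith
        have hpos2 : 0 < (n:ℝ) ^ (x j - 1) := Real.rpow_pos_of_pos hnR _
        rw [← mul_div_assoc, div_le_div_iff₀ (by positivity) hnR]
        nlinarith
      · have hrc : residueClass a n = 0 := by
          simp [residueClass, Set.indicator, h3]
        simp only [f, hrc]
        simp [hbound, hp, h3]
    · have hb : bound n = residueClass a n / n := by simp [hbound, hp]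
      rw [hb]
      simp only [f]
      have e1 : (n:ℝ) ≤ (n:ℝ) ^ (x j) := by
        conv_lhs => rw [← Real.rpow_one (n:ℝ)]
        exact Real.rpow_le_rpow_of_exponent_le hn1 (hx1 j).le
      have e2 : residueClass a n / (n : ℝ) ^ (x j) ≤ residueClass a n / n :=
        div_le_div_of_nonneg_left hnn hnR e1
      have e3 : x j - 1 ≤ 1 := by linarith [hx2 j]
      have e4 : 0 ≤ residueClass a n / (n : ℝ) ^ (x j) := div_nonneg hnn hn0
      nlinarith
  have hf_lim : ∀ n, Tendsto (fun j => f j n) atTop (𝓝 0) := by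
    intro n
    have hnn : 0 ≤ residueClass a n := residueClass_nonneg _ n
    rcases Nat.eq_zero_or_pos n with rfl | hn
    · simp [f]
    have hnR : (0:ℝ) < n := by exact_mod_cast hn
    have hn1 : (1:ℝ) ≤ n := by exact_mod_cast hn
    have up : ∀ j, f j n ≤ (x j - 1) * (residueClass a n / n) := by
      intro j
      have hpos : 0 < x j - 1 := by linarith [hx1 j]
      have e1 : (n:ℝ) ≤ (n:ℝ) ^ (x j) := by
        conv_lhs => rw [← Real.rpow_one (n:ℝ)]
        exact Real.rpow_le_rpow_of_exponent_le hn1 (hx1 j).le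
      exact mul_le_mul_of_nonneg_left (div_le_div_of_nonneg_left hnn hnR e1) hpos.le
    have lo : ∀ j, 0 ≤ f j n := by
      intro j
      have hpos : 0 < x j - 1 := by linarith [hx1 j]
      exact mul_nonneg hpos.le (div_nonneg hnn (Real.rpow_nonneg (Nat.cast_nonneg n) _))
    have l2 : Tendsto (fun j => (x j - 1) * (residueClass a n / n)) atTop (𝓝 0) := by
      have := hxlim.mul_const (residueClass a n / n)
      simpa using this
    exact squeeze_zero lo up l2
  have hT := tendsto_tsum_of_dominated_convergence (f := f) (g := fun _ => (0:ℝ)) hsum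
    hf_lim (Filter.Eventually.of_forall hf_bound)
  simp only [tsum_zero] at hT
  have hlow : ∀ j, ((q.totient : ℝ)⁻¹ : ℝ) - C * (x j - 1) ≤ ∑' n, f j n := by
    intro j
    have hpos : 0 < x j - 1 := by linarith [hx1 j]
    have h1 := hC (x := x j) ⟨hx1 j, hx2 j⟩
    have h2 : ∑' n, f j n = (x j - 1) * ∑' n, residueClass a n / (n : ℝ) ^ (x j) := by
      rw [← tsum_mul_left]
    rw [h2]
    have h3 := mul_le_mul_of_nonneg_left h1 hpos.le
    have h4 : (x j - 1) * ((q.totient : ℝ)⁻¹ / (x j - 1) - C) = (q.totient : ℝ)⁻¹ - C * (x j - 1) := by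
      field_simp
    linarith [h4 ▸ h3]
  have hl2 : Tendsto (fun j => ((q.totient : ℝ)⁻¹ : ℝ) - C * (x j - 1)) atTop (𝓝 ((q.totient : ℝ)⁻¹)) := by
    have := (hxlim.const_mul C).const_sub ((q.totient : ℝ)⁻¹ : ℝ)
    simpa using this
  have := le_of_tendsto_of_tendsto' hl2 hT hlow
  have hq : 0 < (q.totient : ℝ)⁻¹ := inv_pos.mpr (mod_cast q.totient.pos_of_neZero)
  linarith



theorem div_ : Pool.Agent.N718.GC.S_DIV := by
  intro q h hq hc W K
  have hq0 : NeZero q := ⟨by omega⟩
  have hu : IsUnit (h : ZMod q) := (ZMod.isUnit_iff_coprime h q).2 hc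
  have hns := not_summable_primes q (h : ZMod q) hu
  obtain ⟨f, hf⟩ : ∃ f : ℕ → ℝ, f = fun n : ℕ =>
    if n.Prime ∧ ((n : ZMod q) = (h : ZMod q)) then (1 : ℝ) / n else 0 := ⟨_, rfl⟩
  rw [← hf] at hns
  have hf0 : ∀ n, 0 ≤ f n := by
    intro n
    rw [hf]
    simp only
    split_ifs <;> positivity
  have ht := (not_summable_iff_tendsto_nat_atTop_of_nonneg hf0).1 hns
  obtain ⟨N, hN⟩ := (tendsto_atTop_atTop.1 ht) (K + ∑ i ∈ Finset.range (W + 1), f i)
  refine ⟨max N (W + 1), lt_of_lt_of_le (Nat.lt_succ_self W) (le_max_right _ _), ?_⟩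
  obtain ⟨W', hW'⟩ : ∃ W' : ℕ, W' = max N (W + 1) := ⟨_, rfl⟩
  have h1 : N ≤ W' + 1 := by
    rw [hW']
    exact (le_max_left _ _).trans (Nat.le_succ _)
  have h2 : W + 1 ≤ W' + 1 := by
    rw [hW']
    exact (le_max_right _ _).trans (Nat.le_succ _)
  have h3 := hN (W' + 1) h1
  rw [← hW']
  have h4 : ∑ i ∈ Finset.range (W' + 1), f i = ∑ i ∈ Finset.range (W + 1), f i +
      ∑ i ∈ Finset.Ico (W + 1) (W' + 1), f i := by
    rw [Finset.range_eq_Ico, Finset.range_eq_Ico, Finset.sum_Ico_consecutive _ (Nat.zero_le _) h2]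
  have h5 : ∑ l ∈ (Finset.Ioc W W').filter (fun l => l.Prime ∧ l % q = h % q), 1 / (l : ℝ) =
      ∑ i ∈ Finset.Ico (W + 1) (W' + 1), f i := by
    rw [Finset.sum_filter]
    have e : Finset.Ioc W W' = Finset.Ico (W + 1) (W' + 1) := by
      ext i
      simp only [Finset.mem_Ioc, Finset.mem_Ico]
      omega
    rw [e]
    refine Finset.sum_congr rfl fun i _ => ?_
    rw [hf]
    simp only
    have e2 : ((i : ZMod q) = (h : ZMod q)) ↔ i % q = h % q := ZMod.natCast_eq_natCast_iff' i h q
    by_cases hi : i.Prime ∧ i % q = h % q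
    · rw [if_pos hi, if_pos ⟨hi.1, e2.2 hi.2⟩]
    · rw [if_neg hi, if_neg fun hh => hi ⟨hh.1, e2.1 hh.2⟩]
  rw [h5]
  linarith

end Pool.Agent.N232.GC
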